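import Mathlib
import Pool.Agent.H248R6.NearAll

set_option autoImplicit false

/-!
# Equal multiplicities: smooth general members in all degrees but sporadic ones

For `n > 9` general points of the complex projective plane and `M` with `M + 1 ≤ n - 6 √n + 11`,
or `n` a perfect square, or the weaker numerical condition below: all linear systems
`|d H - ∑ w i E i|` with multiplicities `w i ≤ M` and
`n * (M + 1).choose 2 + M < (d + 2).choose 2` are nonspecial, and their general members are smooth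
on the blow-up. For `w i = M` for all `i` this misses only those nonempty systems for which
`(d + 2).choose 2 - n * (M + 1).choose 2` is at most `M`; there are none if `n = (2 k) ^ 2` and
`k ≤ 2 M + 1`. The points are all those outside one hypersurface defined over the rationals, which
depends only on `n` and `M`.
-/

namespace Pool.Agent.Results.MP_0421d9_ag.AlmostAllDegrees

open Pool.Agent.H248R5 Pool.Agent.H248R6

theorem gap {n M d k : ℕ} (hn : 9 < n) (hM : 0 < M) (h1 : n = (2 * k) ^ 2) (h2 : k ≤ 2 * M + 1)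
    (h3 : n * (M + 1).choose 2 < (d + 2).choose 2) :
    n * (M + 1).choose 2 + M + 1 ≤ (d + 2).choose 2 := by
  have hk : 2 ≤ k := by
    by_contra hcon
    have : k ≤ 1 := by omega
    have h4 : (2 * k) ^ 2 ≤ (2 * 1) ^ 2 := Nat.pow_le_pow_left (by omega) 2
    omega
  have e1 := two_choose M
  have e2 := two_choose (d + 1)
  have e3 : d + 1 + 1 = d + 2 := rfl
  rw [e3] at e2
  have e4 : 2 * (n * (M + 1).choose 2) = (2 * k) ^ 2 * ((M + 1) * M) := by
    rw [h1, ← e1]
    ring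
  rcases Nat.lt_or_ge (2 * d + 3) (2 * k * (2 * M + 1)) with h4 | h4
  · exfalso
    have h5 : (2 * d + 3) + 1 ≤ 2 * k * (2 * M + 1) := h4
    have h6 : 2 * (n * (M + 1).choose 2) < 2 * (d + 2).choose 2 := by omega
    rw [e4, e2] at h6
    have h7 : ((2 * d + 3) + 1) * ((2 * d + 3) + 1) ≤
        2 * k * (2 * M + 1) * (2 * k * (2 * M + 1)) := Nat.mul_le_mul h5 h5
    have h8 : k * k ≤ k * (2 * M + 1) := Nat.mul_le_mul le_rfl h2
    nlinarith
  · have h5 : 2 * k * (2 * M + 1) + 1 ≤ 2 * d + 3 := by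
      rcases Nat.lt_or_eq_of_le h4 with h5 | h5
      · exact h5
      · exfalso
        have : 2 * (k * (2 * M + 1)) = 2 * k * (2 * M + 1) := by ring
        omega
    have h6 : (2 * k * (2 * M + 1) + 1) * (2 * k * (2 * M + 1) + 1) ≤
        (2 * d + 3) * (2 * d + 3) := Nat.mul_le_mul h5 h5
    have h7 : 2 * (2 * M + 1) ≤ k * (2 * M + 1) := Nat.mul_le_mul hk le_rfl
    have h8 : 2 * 2 ≤ k * k := Nat.mul_le_mul hk hk
    nlinarith

theorem result (n M : ℕ) (hn : 9 < n) (hM : 0 < M)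
    (h : ((M + 1 : ℕ) : ℝ) ≤ n - 6 * Real.sqrt n + 11 ∨
      ∃ δ κ : ℕ, 2 ≤ δ ∧ n = δ ^ 2 + 2 * κ ∧
        (κ = 0 ∨ n * (M * (M + 1)) + 2 * (M + 1) < δ ^ 2 * (δ ^ 2 + 3) * (δ ^ 2 + 4))) :
    ∃ F : MvPolynomial (Fin n × Fin 2) ℚ, F ≠ 0 ∧ ∀ P : Fin n → Fin 2 → ℂ,
      MvPolynomial.aeval (fun ij : Fin n × Fin 2 => P ij.1 ij.2) F ≠ 0 →
      (∀ d : ℕ, Module.finrank ℂ ↥(forms (fun _ => M) P d) =
        (d + 2).choose 2 - n * (M + 1).choose 2) ∧
      ∀ w : Fin n → ℕ, (∀ i, w i ≤ M) → ∀ d : ℕ,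
        (n * (M + 1).choose 2 + M < (d + 2).choose 2 ∨
          (n * (M + 1).choose 2 < (d + 2).choose 2 ∧ ∃ k, n = (2 * k) ^ 2 ∧ k ≤ 2 * M + 1)) →
        Module.finrank ℂ ↥(forms w P d) + ∑ i, (w i + 1).choose 2 = (d + 2).choose 2 ∧
          GeneralMember (forms w P d) (SmoothMember w P) := by
  obtain ⟨F, hF, hF'⟩ := near_all (K := ℂ) hn hM h
  refine ⟨F, hF, fun P hP => ⟨(hF' P hP).1, fun w hw d hd => (hF' P hP).2 w hw d ?_⟩⟩
  rcases hd with hd | ⟨h3, k, h1, h2⟩
  · exact hd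
  · exact gap hn hM h1 h2 h3

end Pool.Agent.Results.MP_0421d9_ag.AlmostAllDegrees
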