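import Mathlib
import Pool.Agent.H932R3.Finals
import Pool.Agent.H248R5.Gen

set_option autoImplicit false

/-!
# Near-uniform multiplicities: nonspecial in every degree, smooth in every degree but one

For `n > 9` general points of the complex projective plane with multiplicities `w i ∈ {m, m + 1}`,
where `m + 1 ≤ n - 6 √n + 11`, or `n` is a perfect square, or the weaker numerical condition below
holds, every linear system `|d H - ∑ w i E i|` is nonspecial, and its general member is a smooth
curve on the blow-up for every `d` with `∑ (w i + 1).choose 2 ≤ (d + 1).choose 2`, that is for all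
nonempty systems with the possible exception of the one of smallest degree.
-/

namespace Pool.Agent.Results.MP_0421d9_ag.NearUniformSmooth

open Pool.Agent.H248R5

theorem result (n : ℕ) (hn : 9 < n) (m : ℕ) (hm : 0 < m) (w : Fin n → ℕ)
    (hw : ∀ i, w i = m ∨ w i = m + 1)
    (h : ((m + 1 : ℕ) : ℝ) ≤ n - 6 * Real.sqrt n + 11 ∨
      ∃ δ κ : ℕ, 2 ≤ δ ∧ n = δ ^ 2 + 2 * κ ∧
        (κ = 0 ∨ ∑ i, w i * (w i + 1) < δ ^ 2 * (δ ^ 2 + 3) * (δ ^ 2 + 4))) :
    ∃ F : MvPolynomial (Fin n × Fin 2) ℂ, F ≠ 0 ∧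
      ∀ P : Fin n → Fin 2 → ℂ,
        MvPolynomial.eval (fun ij : Fin n × Fin 2 => P ij.1 ij.2) F ≠ 0 →
        ∀ d : ℕ,
          Module.finrank ℂ ↥(forms w P d) = (d + 2).choose 2 - ∑ i, (w i + 1).choose 2 ∧
          (∑ i, (w i + 1).choose 2 ≤ (d + 1).choose 2 →
            GeneralMember (forms w P d) (SmoothMember w P)) := by
  obtain ⟨F, hF, hF'⟩ := H932R3.near_points (L := ℂ) (by omega) hm hw (H932R3.near_cond hn hw h)
  refine ⟨F.map (algebraMap ℚ ℂ) * disc ℂ n, mul_ne_zero (H932R3.map_ne_zero_of hF)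
    (disc_ne ℂ n), fun P hP => ?_⟩
  rw [map_mul, MvPolynomial.eval_map] at hP
  have h1 := hF' P (left_ne_zero_of_mul hP)
  refine fun d => ⟨h1 d, fun hd => ?_⟩
  have hd0 : 0 < d := by
    rcases Nat.eq_zero_or_pos d with h0 | h0
    · exfalso
      subst h0
      have h2 : (w ⟨0, by omega⟩ + 1).choose 2 ≤ ∑ i, (w i + 1).choose 2 :=
        Finset.single_le_sum (f := fun i => (w i + 1).choose 2) (fun i _ => Nat.zero_le _)
          (Finset.mem_univ _)
      have h3 : 0 < (w ⟨0, by omega⟩ + 1).choose 2 := by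
        refine Nat.choose_pos ?_
        rcases hw ⟨0, by omega⟩ with h | h <;> omega
      have h4 : (0 + 1).choose 2 = 0 := rfl
      omega
    · exact h0
  exact general_smooth' (inj_of_disc (right_ne_zero_of_mul hP)) hd0 (h1 (d - 1)) hd

end Pool.Agent.Results.MP_0421d9_ag.NearUniformSmooth
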