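import Mathlib
import Pool.Agent.H852.QP.Hom
import Pool.Agent.H248R6.NearAll

set_option autoImplicit false

/-!
# Multiplicities up to `exp ((log n) ^ 2 / 64)`: smooth general members outside a window

For every `ε > 0` there is an `N` such that for `n ≥ N` general points of the complex projective
plane and `1 ≤ m ≤ exp ((log n) ^ 2 / 64)`: in every degree `d` with
`|2 d + 3 - √n (2 m + 1)| ≥ ε` the system `|d H - m ∑ E i|` is nonspecial, and if also
`n * (m + 1).choose 2 + m < (d + 2).choose 2`, then all systems `|d H - ∑ w i E i|` with `w i ≤ m`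
are nonspecial and have smooth general members. If `√n ≤ ε m`, then for equal multiplicities it is
enough that the system is not empty. The points are all those outside one hypersurface defined
over the rationals, which depends only on `n`, `m` and `ε`.
-/

namespace Pool.Agent.Results.MP_0421d9_ag.QuasiPolynomialRange

open Pool.Agent.H248R5 Pool.Agent.H248R6

theorem gap {n m d : ℕ} {ε : ℝ} (hε : 0 < ε) (hn2 : 4 / ε ≤ Real.sqrt n)
    (hn3 : 2 + ε / 2 ≤ Real.sqrt n)
    (hm : Real.sqrt n ≤ ε * m) (hx : ε ≤ |2 * (d : ℝ) + 3 - Real.sqrt n * (2 * m + 1)|)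
    (hd : n * (m + 1).choose 2 < (d + 2).choose 2) :
    n * (m + 1).choose 2 + m < (d + 2).choose 2 := by
  by_contra hcon
  have e1 := two_choose m
  have e2 := two_choose (d + 1)
  have e3 : d + 1 + 1 = d + 2 := rfl
  rw [e3] at e2
  have e4 : 2 * (n * (m + 1).choose 2) = n * ((m + 1) * m) := by
    rw [← e1]
    ring
  have e5 : n * ((m + 1) * m) + 2 ≤ (d + 2) * (d + 1) := by omega
  have e6 : (d + 2) * (d + 1) ≤ n * ((m + 1) * m) + 2 * m := by omega
  have e5' : (n : ℝ) * ((m + 1) * m) + 2 ≤ (d + 2) * (d + 1) := by exact_mod_cast e5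
  have e6' : ((d : ℝ) + 2) * (d + 1) ≤ n * ((m + 1) * m) + 2 * m := by exact_mod_cast e6
  have hs : Real.sqrt n * Real.sqrt n = n := Real.mul_self_sqrt (Nat.cast_nonneg n)
  have hs0 : 0 < Real.sqrt n := by linarith
  have hm0 : (0 : ℝ) ≤ m := Nat.cast_nonneg m
  have hd0 : (0 : ℝ) ≤ d := Nat.cast_nonneg d
  have hy : (Real.sqrt n * (2 * m + 1)) ^ 2 = 4 * (n * ((m + 1) * m)) + n := by
    linear_combination (2 * (m : ℝ) + 1) ^ 2 * hs
  have h4 : 4 ≤ Real.sqrt n * ε := by rwa [div_le_iff₀ hε] at hn2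
  rcases le_abs.1 hx with h1 | h1
  · have h2 : (Real.sqrt n * (2 * m + 1) + ε) ^ 2 ≤ (2 * (d : ℝ) + 3) ^ 2 := by
      refine pow_le_pow_left₀ (by positivity) (by linarith) 2
    have h3 : 4 * (2 * (m : ℝ) + 1) ≤ Real.sqrt n * ε * (2 * m + 1) :=
      mul_le_mul_of_nonneg_right h4 (by positivity)
    have h5 : (0 : ℝ) ≤ n := Nat.cast_nonneg n
    nlinarith
  · have h2 : (2 * (d : ℝ) + 3) ^ 2 ≤ (Real.sqrt n * (2 * m + 1) - ε) ^ 2 := by
      refine pow_le_pow_left₀ (by positivity) (by linarith) 2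
    have h3 : Real.sqrt n * Real.sqrt n ≤ Real.sqrt n * (ε * m) :=
      mul_le_mul_of_nonneg_left hm hs0.le
    have h6 : (ε / 2) * (ε / 2) ≤ Real.sqrt n * Real.sqrt n :=
      mul_self_le_mul_self (by positivity) (by linarith)
    have h7 : (ε / 2) * ε ≤ Real.sqrt n * ε :=
      mul_le_mul_of_nonneg_right (by linarith) hε.le
    nlinarith

theorem result (ε : ℝ) (hε : 0 < ε) : ∃ N : ℕ, ∀ n : ℕ, N ≤ n → ∀ m : ℕ, 0 < m →
    (m : ℝ) ≤ Real.exp (Real.log n ^ 2 / 64) →
    ∃ F : MvPolynomial (Fin n × Fin 2) ℚ, F ≠ 0 ∧ ∀ P : Fin n → Fin 2 → ℂ,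
      MvPolynomial.aeval (fun ij : Fin n × Fin 2 => P ij.1 ij.2) F ≠ 0 →
      ∀ d : ℕ, ε ≤ |2 * (d : ℝ) + 3 - Real.sqrt n * (2 * m + 1)| →
        Module.finrank ℂ ↥(forms (fun _ => m) P d) =
          (d + 2).choose 2 - n * (m + 1).choose 2 ∧
        (n * (m + 1).choose 2 + m < (d + 2).choose 2 → ∀ w : Fin n → ℕ, (∀ i, w i ≤ m) →
          Module.finrank ℂ ↥(forms w P d) + ∑ i, (w i + 1).choose 2 = (d + 2).choose 2 ∧
            GeneralMember (forms w P d) (SmoothMember w P)) ∧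
        (Real.sqrt n ≤ ε * m → forms (fun _ => m) P d ≠ ⊥ →
          GeneralMember (forms (fun _ => m) P d) (SmoothMember (fun _ => m) P)) := by
  obtain ⟨N, hN, h⟩ := Pool.Agent.H852.QP.near_uniformQ (half_pos hε)
  refine ⟨max N (⌈(4 / ε + (2 + ε / 2)) ^ 2⌉₊), fun n hn m hm hmk => ?_⟩
  have hn1 : N ≤ n := le_trans (le_max_left _ _) hn
  have hsq : 4 / ε + (2 + ε / 2) ≤ Real.sqrt n := by
    refine Real.le_sqrt_of_sq_le ?_
    exact (Nat.le_ceil _).trans (by exact_mod_cast le_trans (le_max_right _ _) hn)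
  have h4 : 0 < 4 / ε := by positivity
  have hw : WinHyp n (Real.exp (Real.log n ^ 2 / 64)) (ε / 2) :=
    fun L _ _ m hm hmX w hw => h L n hn1 m hm hmX w hw
  obtain ⟨F, hF, hF'⟩ := win_all (K := ℂ) hw hε (by omega) (by linarith) (by linarith) hm hmk
  refine ⟨F, hF, fun P hP d hx => ?_⟩
  obtain ⟨h1, h2⟩ := hF' P hP d hx
  refine ⟨h1, h2, fun hs hne => (h2 (gap hε (by linarith) (by linarith) hs hx ?_)
    (fun _ => m) (fun _ => le_rfl)).2⟩
  by_contra hcon
  apply hne
  have hfin := forms_finite (fun _ : Fin n => m) P d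
  refine Submodule.finrank_eq_zero.1 ?_
  rw [h1]
  omega

end Pool.Agent.Results.MP_0421d9_ag.QuasiPolynomialRange
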